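import Pool.Agent.X112.LF.Hgt

/-!
Polynomial relations of bounded complexity between the ordinates `γ (n + k 0), …, γ (n + k m)`, where
`k 0 = 0`, the differences `|k i - k j|` are at least `h` and the `k i` at most `h ^ A`, with `h` large.
Unconditional.

For all but `θ N` of the `n ≤ N`, no nonzero integer polynomial in `m + 1` variables of degree at most `d`
and height at most `H` vanishes at this tuple, and none of them is smaller than
`ε (√(log h) / log γ_n) ^ d` in modulus.  For a given polynomial (or for any `J` given ones) the height may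
be as large as a power `N ^ ϑ`, `ϑ < 1`, and the bound for the number of exceptions is uniform.  No
condition on the polynomial is needed.

The proof: the joint central limit theorem for the numbers of zeros in the windows `[t, t + k i u]`, with a
nondegenerate Gaussian limit; a polynomial which is not zero vanishes on a null set of this Gaussian
measure; and the expansion of a polynomial near the diagonal.
-/

set_option autoImplicit false

open Filter MvPolynomial

namespace Pool.Agent.Results.MP_ec260d_nt.BoundedComplexity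

/-- multiplicity of `s` as a zero of the Riemann zeta function (order of vanishing at `s`) -/
noncomputable def zmult (s : ℂ) : ℕ := analyticOrderNatAt riemannZeta s

/-- the number of nontrivial zeros of `ζ` with ordinate in `(0, t]`, with multiplicity -/
noncomputable def NZ (t : ℝ) : ℕ :=
  ∑ᶠ s ∈ {s : ℂ | riemannZeta s = 0 ∧ 0 < s.re ∧ s.re < 1 ∧ 0 < s.im ∧ s.im ≤ t}, zmult s

/-- for `n ≥ 1`: the `n`-th positive ordinate `γ n` of a nontrivial zero of `ζ`, the ordinates being
listed in nondecreasing order and repeated according to multiplicity -/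
noncomputable def γ (n : ℕ) : ℝ := sInf {t : ℝ | n ≤ NZ t}

/-- `k = (0, k 1, …, k m)`, any two of these numbers differ by at least `h`, and all are at most `h ^ A` -/
def Spaced {m : ℕ} (A h : ℕ) (k : Fin (m + 1) → ℕ) : Prop :=
  k 0 = 0 ∧ (∀ i j, i ≠ j → (h : ℝ) ≤ |(k i : ℝ) - k j|) ∧ ∀ i, k i ≤ h ^ A

lemma ev_rp {m : ℕ} (Q : MvPolynomial (Fin (m + 1)) ℤ) (k : Fin (m + 1) → ℕ) (n : ℕ) :
    aeval (fun i => γ (n + k i)) Q = MvPolynomial.eval (fun i => SG.ord (n + k i)) (Pool.Agent.X112.LF.rp Q) := by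
  unfold Pool.Agent.X112.LF.rp
  rw [eval_map, aeval_def]
  rfl

/-- Unconditionally, with `γ n` the ordinates of all the nontrivial zeros in the upper half-plane,
for all `m`, `d`, `A ≥ 1` and `θ > 0`:

(1) for every `J` there is `ε > 0` such that for all large `h`, all spaced tuples `k`, all `ϑ < 1` and all
large `N`: for all sets `S` of at most `J` nonzero integer polynomials in `m + 1` variables, of degree at
most `d` and with coefficients of modulus at most `N ^ ϑ`, all but at most `θ N` of the `n ≤ N` satisfy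
`|Q (γ (n + k 0), …, γ (n + k m))| > ε (√(log h) / log (γ n)) ^ d` for all `Q ∈ S`;

(2) for every `H` there is `ε > 0` such that for all large `h`, all spaced tuples `k` and all large `N`,
all but at most `θ N` of the `n ≤ N` satisfy this inequality for all nonzero integer polynomials `Q` in
`m + 1` variables of degree at most `d` with coefficients of modulus at most `H`. -/
theorem result (m A d : ℕ) (hA : 1 ≤ A) (θ : ℝ) (hθ : 0 < θ) :
    (∀ J : ℕ, ∃ ε : ℝ, 0 < ε ∧ ∀ᶠ h : ℕ in atTop, ∀ k : Fin (m + 1) → ℕ, Spaced A h k →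
      ∀ ϑ : ℝ, ϑ < 1 → ∀ᶠ N : ℕ in atTop,
      ∀ S : Finset (MvPolynomial (Fin (m + 1)) ℤ), S.card ≤ J →
      (∀ Q ∈ S, Q ≠ 0 ∧ Q.totalDegree ≤ d ∧ ∀ s, |((Q.coeff s : ℤ) : ℝ)| ≤ (N : ℝ) ^ ϑ) →
      ({n : ℕ | 1 ≤ n ∧ n ≤ N ∧ ∃ Q ∈ S, |aeval (fun i => γ (n + k i)) Q| * Real.log (γ n) ^ d ≤
        ε * Real.sqrt (Real.log h) ^ d}.ncard : ℝ) ≤ θ * N) ∧
    (∀ H : ℕ, ∃ ε : ℝ, 0 < ε ∧ ∀ᶠ h : ℕ in atTop, ∀ k : Fin (m + 1) → ℕ, Spaced A h k →
      ∀ᶠ N : ℕ in atTop,
      ({n : ℕ | 1 ≤ n ∧ n ≤ N ∧ ∃ Q : MvPolynomial (Fin (m + 1)) ℤ, Q ≠ 0 ∧ Q.totalDegree ≤ d ∧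
        (∀ s, |Q.coeff s| ≤ H) ∧ |aeval (fun i => γ (n + k i)) Q| * Real.log (γ n) ^ d ≤
        ε * Real.sqrt (Real.log h) ^ d}.ncard : ℝ) ≤ θ * N) := by
  refine ⟨fun J => ?_, fun H => ?_⟩
  · obtain ⟨ε, hε, h⟩ := Pool.Agent.X112.LF.ind_fin A m d J hA θ hθ
    refine ⟨ε, hε, ?_⟩
    filter_upwards [h] with h hh k hk ϑ hϑ
    filter_upwards [hh k hk ϑ hϑ] with N hN S hS hSQ
    have h1 := hN S hS hSQ
    simp only [ev_rp]
    exact h1
  · obtain ⟨ε, hε, h⟩ := Pool.Agent.X112.LF.ind_hgt A m d H hA θ hθ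
    refine ⟨ε, hε, ?_⟩
    filter_upwards [h] with h hh k hk
    filter_upwards [hh k hk] with N hN
    simp only [ev_rp]
    exact hN

end Pool.Agent.Results.MP_ec260d_nt.BoundedComplexity
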