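import Pool.Agent.X112.LF.Hyp

/-!
Let `k 0 = 0`, let the differences `|k i - k j|` be at least `h` and the `k i` at most `h ^ A`, with `h`
large, and let `γ n` be the ordinates of the zeros of `ζ`.  Unconditional.

No real algebraic hypersurface of degree at most `d` in `ℝ ^ m` contains more than `θ N` of the vectors of
gaps `(γ (n + k 1) - γ n, …, γ (n + k m) - γ n)`, `n ≤ N`, or comes closer than `ε √(log h) / log γ_n` to
more than `θ N` of them.  The coefficients of the equation of the hypersurface are arbitrary real numbers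
and may depend on `N`.

The proof: the joint central limit theorem for the numbers of zeros in the windows `[t, t + k i u]`, with a
nondegenerate Gaussian limit; a real polynomial which is not zero vanishes on a null set of this Gaussian
measure; and compactness of the set of the polynomials with normalised coefficients.
-/

set_option autoImplicit false

open Filter MvPolynomial

namespace Pool.Agent.Results.MP_ec260d_nt.GapHypersurfaces

/-- multiplicity of `s` as a zero of the Riemann zeta function (order of vanishing at `s`) -/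
noncomputable def zmult (s : ℂ) : ℕ := analyticOrderNatAt riemannZeta s

/-- the number of nontrivial zeros of `ζ` with ordinate in `(0, t]`, with multiplicity -/
noncomputable def NZ (t : ℝ) : ℕ :=
  ∑ᶠ s ∈ {s : ℂ | riemannZeta s = 0 ∧ 0 < s.re ∧ s.re < 1 ∧ 0 < s.im ∧ s.im ≤ t}, zmult s

/-- for `n ≥ 1`: the `n`-th positive ordinate `γ n` of a nontrivial zero of `ζ`, the ordinates being
listed in nondecreasing order and repeated according to multiplicity -/
noncomputable def γ (n : ℕ) : ℝ := sInf {t : ℝ | n ≤ NZ t}

/-- `k = (0, k 1, …, k m)`, any two of these numbers differ by at least `h`, and all are at most `h ^ A` -/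
def Spaced {m : ℕ} (A h : ℕ) (k : Fin (m + 1) → ℕ) : Prop :=
  k 0 = 0 ∧ (∀ i j, i ≠ j → (h : ℝ) ≤ |(k i : ℝ) - k j|) ∧ ∀ i, k i ≤ h ^ A

/-- Unconditionally, with `γ n` the ordinates of all the nontrivial zeros in the upper half-plane: for all
`m`, `d`, `A ≥ 1` and `θ > 0` there is `ε > 0` such that for all large `h`, all spaced tuples `k`, all large
`N` and all nonzero real polynomials `G` in `m` variables of degree at most `d`: for all but at most `θ N` of
the `n ≤ N` there is no real zero `y` of `G` with
`|γ (n + k (i + 1)) - γ n - y i| ≤ ε √(log h) / log (γ n)` for all `i < m`. -/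
theorem result (m A d : ℕ) (hA : 1 ≤ A) (θ : ℝ) (hθ : 0 < θ) :
    ∃ ε : ℝ, 0 < ε ∧ ∀ᶠ h : ℕ in atTop, ∀ k : Fin (m + 1) → ℕ, Spaced A h k → ∀ᶠ N : ℕ in atTop,
      ∀ G : MvPolynomial (Fin m) ℝ, G ≠ 0 → G.totalDegree ≤ d →
      ({n : ℕ | 1 ≤ n ∧ n ≤ N ∧ ∃ y : Fin m → ℝ, eval y G = 0 ∧
        ∀ i : Fin m, |γ (n + k i.succ) - γ n - y i| * Real.log (γ n) ≤
          ε * Real.sqrt (Real.log h)}.ncard : ℝ) ≤ θ * N := by
  obtain ⟨ε, hε, h⟩ := Pool.Agent.X112.LF.hyp_fin A m d hA θ hθ
  refine ⟨ε, hε, ?_⟩
  filter_upwards [h] with h hh k hk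
  filter_upwards [hh k hk] with N hN
  exact hN

end Pool.Agent.Results.MP_ec260d_nt.GapHypersurfaces
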