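import Pool.Agent.X112.GS.Poly3
import Pool.Agent.X112.GS.Nc

/-!
Polynomial relations between consecutive ordinates of the zeros of zeta: for almost every window of
bounded length no relation (with a nondegenerate leading form and coefficients up to `N^θ`) holds, even
approximately, at all the places of the window.  Unconditional.

Idea of the proof.  Near the diagonal a polynomial is `x^(m-1)` times a linear form in the ordinates,
up to a small error.  If it is small at all the places of a window, then so is the linear form, and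
its differences give an approximate linear recurrence with constant coefficients for the gaps.  Such
recurrences hold on few windows: taking differences repeatedly one is reduced to
`g (x_{n+r} - x_n) = b r + O(1)` for large `r`, and this contradicts the law of large numbers and the
central limit theorem (Selberg, Fujii) for sums of `r` consecutive gaps.
-/

set_option autoImplicit false

open Filter MvPolynomial

namespace Pool.Agent.Results.MP_ec260d_nt.PolynomialRelations

/-- multiplicity of `s` as a zero of the Riemann zeta function (order of vanishing at `s`) -/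
noncomputable def zmult (s : ℂ) : ℕ := analyticOrderNatAt riemannZeta s

/-- the number of nontrivial zeros of `ζ` with ordinate in `(0, t]`, with multiplicity -/
noncomputable def NZ (t : ℝ) : ℕ :=
  ∑ᶠ s ∈ {s : ℂ | riemannZeta s = 0 ∧ 0 < s.re ∧ s.re < 1 ∧ 0 < s.im ∧ s.im ≤ t}, zmult s

/-- for `n ≥ 1`: the `n`-th positive ordinate `γ n` of a nontrivial zero of `ζ`, the ordinates being
listed in nondecreasing order and repeated according to multiplicity -/
noncomputable def γ (n : ℕ) : ℝ := sInf {t : ℝ | n ≤ NZ t}

/-- the partial derivative at `(1, …, 1)`, with respect to the variable `a`, of the homogeneous part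
of degree `m` of `P` -/
noncomputable def grad {k : ℕ} (m : ℕ) (P : MvPolynomial (Fin k) ℝ) (a : Fin k) : ℝ :=
  eval (fun _ => 1) (pderiv a (homogeneousComponent m P))

/-- `P` has total degree at most `m`, its `a`-th derivative `grad m P a` is not zero, and all of its
coefficients are at most `|grad m P a| H` -/
def Adm {k : ℕ} (m : ℕ) (H : ℝ) (P : MvPolynomial (Fin k) ℝ) (a : Fin k) : Prop :=
  P.totalDegree ≤ m ∧ grad m P a ≠ 0 ∧ ∀ s, |coeff s P| ≤ |grad m P a| * H

/-- Unconditionally, with `γ n` the ordinates of all the nontrivial zeros in the upper half-plane.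
(1) For all `k` and `η > 0` there are `B` and `ε > 0` such that for all `m ≥ 1`, `θ < 1` and all large
`N`, for all but at most `η N` of the `n ≤ N`: for every admissible polynomial `P` in `k + 1` variables
(degree `m`, height parameter `N^θ`; `P` may depend on `n`) there is `i < B` with
`|P(γ_{n+i}, …, γ_{n+i+k})| ≥ (ε / m) |grad m P a| γ_{n+i}^(m-1) / log γ_{n+i}`.
(2) For every `k` there is `ε > 0` such that for all `m ≥ 1`, `θ < 1`, all large `N` and every
admissible polynomial `P` the same lower bound holds at `n` for at least `ε N` of the `n ≤ N`. -/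
theorem result (k : ℕ) :
    (∀ η : ℝ, 0 < η → ∃ (B : ℕ) (ε : ℝ), 0 < ε ∧ ∀ m : ℕ, 1 ≤ m → ∀ θ : ℝ, θ < 1 →
      ∀ᶠ N : ℕ in atTop,
        ({n : ℕ | 1 ≤ n ∧ n ≤ N ∧ ∃ (P : MvPolynomial (Fin (k + 1)) ℝ) (a : Fin (k + 1)),
          Adm m ((N : ℝ) ^ θ) P a ∧ ∀ i < B,
            |eval (fun j : Fin (k + 1) => γ (n + i + j)) P| <
              ε / m * |grad m P a| * γ (n + i) ^ (m - 1) / Real.log (γ (n + i))}.ncard : ℝ) ≤
        η * N) ∧
    (∃ ε : ℝ, 0 < ε ∧ ∀ m : ℕ, 1 ≤ m → ∀ θ : ℝ, θ < 1 → ∀ᶠ N : ℕ in atTop,
      ∀ (P : MvPolynomial (Fin (k + 1)) ℝ) (a : Fin (k + 1)), Adm m ((N : ℝ) ^ θ) P a →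
        ε * N ≤ ({n : ℕ | 1 ≤ n ∧ n ≤ N ∧
          ε / m * |grad m P a| * γ n ^ (m - 1) / Real.log (γ n) ≤
            |eval (fun j : Fin (k + 1) => γ (n + j)) P|}.ncard : ℝ)) := by
  classical
  have e1 : ∀ n, γ n = SG.ord n := fun n => rfl
  have e2 : ∀ (m : ℕ) (P : MvPolynomial (Fin (k + 1)) ℝ) (a : Fin (k + 1)),
      grad m P a = Pool.Agent.Y743.PR.grad m P a := fun m P a => rfl
  refine ⟨fun η hη => ?_, ?_⟩
  · obtain ⟨B, ε, hε, h⟩ := Pool.Agent.X112.GS.poly_win k η hη
    refine ⟨B, ε, hε, fun m hm θ hθ => ?_⟩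
    filter_upwards [h m hm θ hθ] with N hN
    simp only [e1, e2, Adm, and_assoc]
    rw [Pool.Agent.X112.GS.nc]
    exact hN
  · obtain ⟨ε, hε, h⟩ := Pool.Agent.X112.GS.poly_prop k
    refine ⟨ε, hε, fun m hm θ hθ => ?_⟩
    filter_upwards [h m hm θ hθ] with N hN P a hP
    simp only [e1, e2]
    rw [Pool.Agent.X112.GS.nc]
    exact hN P a hP.1 hP.2.1 hP.2.2

end Pool.Agent.Results.MP_ec260d_nt.PolynomialRelations
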