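import Pool.Agent.X112.LF.Poly

/-!
Integer polynomials in the ordinates `γ (n + k 0), …, γ (n + k m)`, where `k 0 = 0`, the differences
`|k i - k j|` are at least `h` and the `k i` at most `h ^ A`, with `h` large.  Unconditional.

If the leading form of `Q` has a nonzero gradient `G` at `(1, …, 1)`, then for all but `θ N` of the
`n ≤ N` the number `Q(γ (n + k 0), …, γ (n + k m))` is not zero, and is at least
`κ |G| √(log h) γ_n ^ (d - 1) / log γ_n` in modulus, where `d` is the degree; the height of `Q` may be as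
large as a power `N ^ ϑ`, `ϑ < 1`, and the bound for the number of exceptions is uniform in `Q`.

The proof expands `Q` near the diagonal and uses that linear forms in such ordinates, with real
coefficients whose sum is zero, are not concentrated near any real number.
-/

set_option autoImplicit false

open Filter MvPolynomial

namespace Pool.Agent.Results.MP_ec260d_nt.PolynomialsAlmostAll

/-- multiplicity of `s` as a zero of the Riemann zeta function (order of vanishing at `s`) -/
noncomputable def zmult (s : ℂ) : ℕ := analyticOrderNatAt riemannZeta s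

/-- the number of nontrivial zeros of `ζ` with ordinate in `(0, t]`, with multiplicity -/
noncomputable def NZ (t : ℝ) : ℕ :=
  ∑ᶠ s ∈ {s : ℂ | riemannZeta s = 0 ∧ 0 < s.re ∧ s.re < 1 ∧ 0 < s.im ∧ s.im ≤ t}, zmult s

/-- for `n ≥ 1`: the `n`-th positive ordinate `γ n` of a nontrivial zero of `ζ`, the ordinates being
listed in nondecreasing order and repeated according to multiplicity -/
noncomputable def γ (n : ℕ) : ℝ := sInf {t : ℝ | n ≤ NZ t}

/-- `k = (0, k 1, …, k m)`, any two of these numbers differ by at least `h`, and all are at most `h ^ A` -/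
def Spaced {m : ℕ} (A h : ℕ) (k : Fin (m + 1) → ℕ) : Prop :=
  k 0 = 0 ∧ (∀ i j, i ≠ j → (h : ℝ) ≤ |(k i : ℝ) - k j|) ∧ ∀ i, k i ≤ h ^ A

/-- the partial derivative at `(1, …, 1)`, with respect to the variable `j`, of the homogeneous part
of degree `d` of `Q` -/
noncomputable def grad {m : ℕ} (d : ℕ) (Q : MvPolynomial (Fin m) ℤ) (j : Fin m) : ℤ :=
  eval (fun _ => 1) (pderiv j (homogeneousComponent d Q))

lemma grad_eq {m : ℕ} (d : ℕ) (Q : MvPolynomial (Fin m) ℤ) (j : Fin m) :
    grad d Q j = ∑ s ∈ Q.support with (∑ j, s j) = d, coeff s Q * s j := by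
  unfold grad
  rw [homogeneousComponent_apply, map_sum, map_sum]
  refine Finset.sum_congr ?_ fun s _ => ?_
  · ext s
    rw [Finset.mem_filter, Finset.mem_filter, Pool.Agent.Y743.PR.deg_eq]
  · rw [pderiv_monomial, eval_monomial]
    simp [Finsupp.prod]

lemma grad_rp {m : ℕ} (d : ℕ) (Q : MvPolynomial (Fin (m + 1)) ℤ) (j : Fin (m + 1)) :
    Pool.Agent.Y743.PR.grad d (Pool.Agent.X112.LF.rp Q) j = grad d Q j := by
  rw [Pool.Agent.Y743.PR.grad_eq, grad_eq]
  have e : (Pool.Agent.X112.LF.rp Q).support = Q.support :=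
    support_map_of_injective _ (RingHom.injective_int (Int.castRingHom ℝ))
  rw [e]
  push_cast
  exact Finset.sum_congr rfl fun s _ => by rw [Pool.Agent.X112.LF.coeff_rp Q s]

/-- Unconditionally, with `γ n` the ordinates of all the nontrivial zeros in the upper half-plane.
For every `m`, `A ≥ 1` and `θ > 0` there is `κ > 0` such that for all large `h`, all spaced tuples `k`,
all `d ≥ 1`, `ϑ < 1` and all large `N`: for every integer polynomial `Q` in `m + 1` variables of degree at
most `d` with coefficients of modulus at most `N ^ ϑ` and every `j` with `grad d Q j ≠ 0`, all but at most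
`θ N` of the `n ≤ N` satisfy
`|Q (γ (n + k 0), …, γ (n + k m))| > κ |grad d Q j| √(log h) (γ n) ^ (d - 1) / log (γ n)`. -/
theorem result (m A : ℕ) (hA : 1 ≤ A) (θ : ℝ) (hθ : 0 < θ) :
    ∃ κ : ℝ, 0 < κ ∧ ∀ᶠ h : ℕ in atTop, ∀ k : Fin (m + 1) → ℕ, Spaced A h k →
      ∀ d : ℕ, 1 ≤ d → ∀ ϑ : ℝ, ϑ < 1 → ∀ᶠ N : ℕ in atTop,
      ∀ (Q : MvPolynomial (Fin (m + 1)) ℤ) (j : Fin (m + 1)), Q.totalDegree ≤ d →
      (∀ s, |((Q.coeff s : ℤ) : ℝ)| ≤ (N : ℝ) ^ ϑ) → grad d Q j ≠ 0 →
      ({n : ℕ | 1 ≤ n ∧ n ≤ N ∧ |aeval (fun i => γ (n + k i)) Q| * Real.log (γ n) ≤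
        κ * |(grad d Q j : ℝ)| * Real.sqrt (Real.log h) * γ n ^ (d - 1)}.ncard : ℝ) ≤ θ * N := by
  obtain ⟨κ, hκ, h⟩ := Pool.Agent.X112.LF.poly_fin A m hA θ hθ
  refine ⟨κ, hκ, ?_⟩
  filter_upwards [h] with h hh k hk d hd ϑ hϑ
  filter_upwards [hh k hk d hd ϑ hϑ] with N hN Q j hQ hc hg
  have h1 := hN Q j hQ hc (by rw [grad_rp]; exact_mod_cast hg)
  rw [grad_rp] at h1
  have e : ∀ n, aeval (fun i => γ (n + k i)) Q =
      MvPolynomial.eval (fun i => SG.ord (n + k i)) (Pool.Agent.X112.LF.rp Q) := by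
    intro n
    unfold Pool.Agent.X112.LF.rp
    rw [eval_map, aeval_def]
    rfl
  simp only [e]
  exact h1

end Pool.Agent.Results.MP_ec260d_nt.PolynomialsAlmostAll
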